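import Pool.Agent.H30.EE.All

set_option autoImplicit false

/-!
# The Lang-Vojta question for complements of very general hypersurfaces of degree `≥ (1 + ε) n`

Let `ε > 0` be rational, `n ≥ n0 (ε)` and `d = e + 1 ≥ (1 + ε) n`. Let `F = frm c` be a form of
degree `d` in `n + 1` variables with coefficients `c` algebraically independent over the rational
numbers, and let `X` be the complement of the hypersurface `F = 0` in projective `n`-space,
embedded in affine space by the functions `X ^ M / F`, `M` the monomials of degree `d` (equations
`eqs c`). Then Q1 holds for `X` with a linear function `β`, which depends on `n`, `d` and `ε` only.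
The exceptional set is swept out by the rational normal curves of degree `r ≤ 1 / ε` which meet the
hypersurface in at most two points (`excCurve`); it is contained in a proper closed subset `Ψ = 0`
of `X`. (`X` is of log general type if and only if `d ≥ n + 2`. By a count of dimensions such
curves of degree `r` should exist if and only if `r (d - n - 1) ≤ n - 1`.)

Outline of the proof. Let `x` be the generic point of the curve, `K` its function field, `h` the
height of `x`. Derivations of `k` act on the coefficients of `F` and give velocities of `x` for all
infinitesimal deformations of `F`; hence the forms `G` of degree `d`, `G (x) = 0`, act on the pair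
(`F`, `x`). For a subspace `L` of `K ^ (n + 1)` with `x` in `L` those which preserve `L` give the
height inequality (with the symbols `T` of the operators which preserve `x` and `L`, a space of
codimension `≤ (r + 1) (n - r + 1)` in the forms of degree `d`, `dim L = r + 1`). Degrees of
subspaces of the space of forms of degree `a` over `K` are studied with the Harder-Narasimhan
filtration: the largest subspace `J_a` which maximises `deg W + μ dim W`. By Gauss' lemma
`J_a J_b` is in `J_(a + b)`, and for a fixed small multiple `μ` of `h / R` one finds: the three
coordinates `l_0 (x), l_1 (x), l (x)` satisfy an equation of bounded degree and small height, for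
all linear forms `l` with constant coefficients. Elements of small height are constants in an
ultraproduct of function fields, so this says there that the coordinates are algebraic over
`k_0 (t)`, `t = l_1 (x) / l_0 (x)`; by a theorem on spaces of functions on curves of the kind of
Castelnuovo's they are polynomials in `t` of bounded degree. So `x` is on a rational normal curve
of bounded degree and small height. A second application of the height inequality, with forms
vanishing on the curve and their Chow-form like height `D_a`, gives a curve of height `O (χ)` unless
`F` restricted to the curve has at most two zeros. At last a curve of bounded height with at least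
three different points on `F = 0` is treated by the inequality of Mason and Stothers with moving
targets.
-/

namespace Pool.Agent.Results.MP_70ba79_ag.AsymptoticHypersurface

open MvPolynomial SC Pool.Agent.H27.LV Pool.Agent.H17.VG Pool.Agent.H30.EE

theorem result : ∀ ε : ℚ, 0 < ε → ε ≤ 1 →
    ∃ n0 : ℕ, ∀ n e : ℕ, n0 ≤ n → (1 + ε) * n ≤ e + 1 → ∃ C : ℕ,
    ∀ (k : Type) [Field k] [IsAlgClosed k] [CharZero k] (c : Mon (n + 1) (e + 1) → k),
    AlgebraicIndependent ℚ c →
    DegreeBoundOff k (eqs c) (fun K _ _ y => excCurve ε c K y) (fun χ => C * χ) ∧
    (∃ Ψ : MvPolynomial (Mon (n + 1) (e + 1)) k,
      (∃ y : Mon (n + 1) (e + 1) → k, (∀ g ∈ eqs c, aeval y g = 0) ∧ aeval y Ψ ≠ 0) ∧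
      ∀ (K : Type) [Field K] [Algebra k K] (y : Mon (n + 1) (e + 1) → K),
        excCurve ε c K y → aeval y Ψ = 0) ∧
    ∀ (K : Type) [Field K] [Algebra k K] (y : Mon (n + 1) (e + 1) → K),
      (∀ g ∈ eqs c, aeval y g = 0) ↔ ∃ (x : Fin (n + 1) → K) (p : Fin (n + 1)), x p = 1 ∧
        eval x (up K (frm c)) ≠ 0 ∧
        ∀ M : Mon (n + 1) (e + 1), y M = (∏ i, x i ^ M.1 i) / eval x (up K (frm c)) :=
  fie_res fie_all

end Pool.Agent.Results.MP_70ba79_ag.AsymptoticHypersurface
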