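import Pool.Agent.H17.AH.All

set_option autoImplicit false

/-!
# The Lang-Vojta question for very general log complete intersections

Let `F i = frmT c i` (`i` in a finite set `ι`) be forms of degrees `e i + 1` in `n + 1` variables,
all coefficients of all of them (`c`) algebraically independent over the rational numbers. Let `Z`
be a proper subset of `ι` with less than `n` elements, and let `X` be the variety given in
projective `n`-space by `F i = 0` for `i` in `Z` and `F i ≠ 0` for the other `i`. Suppose that
`2 ∑ (e i + 1) + card Z ≥ 3 n + 2`, or (border cases) that `2 ∑ (e i + 1) + card Z = 3 n + 1`,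
`∑ (e i + 1) ≥ n + 2` and `X` is the complement of a hypersurface in projective space or a
hypersurface in affine space (two forms, `Z = {i₁}`, the other form is linear).

`X` is embedded in affine space by the functions `X ^ M / G`, where `G` is the product of the
`F i`, `i` not in `Z`, and `M` runs over the monomials of degree `deg G` (equations `eqsP Z c`).
Then Q1 holds for `X` with a linear function `β`, which depends on `n`, `e` and `Z` only. The
exceptional set is swept out by the lines and, in the border cases, the smooth conics contained in
`F i = 0`, `i` in `Z`, which meet `G = 0` in at most two points; it is contained in a proper closed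
subset `Ψ = 0` of `X`.

The border cases complete the range of log general type (`∑ (e i + 1) ≥ n + 2`) for the complements
of very general hypersurfaces (one form, `Z = ∅`) if `n ≤ 3`, and for very general affine
hypersurfaces of dimension at most `3`, for example the quintic surfaces in projective 3-space and
the affine quintic threefolds.

Outline of the proof. Derivations of `k` act on the coefficients of the `F i`, and give velocities
of the point `x` for all infinitesimal deformations of the `F i`. The velocities of the multiples
`ξ Q_j`, `ξ (x) = 0`, of families `Q_j` of forms of degrees `e i` fill the tangent space; how many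
families are needed is controlled by brackets of the operators, unless `x` is on an exceptional
line, and the height inequality (a determinant) gives the bound. In the border cases exactly two
dimensions are left for the last family `Q`, and the height inequality says that all minors of a
matrix with the rows `x`, `y_0 (X Q)`, `y_1 (X Q)` have small height, where `y_0`, `y_1` are
functionals which do not depend on `Q`. If these minors are constants (elements of an algebraically
closed field), then `x` is on a line or on a conic over that field. The same with small heights
instead of constants follows with an ultraproduct of function fields: the elements of small height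
are a field, algebraically closed in the ultraproduct. Lines and conics of small height with at
least three different points on the boundary are treated by the inequality of Mason and Stothers
with moving targets.
-/

namespace Pool.Agent.Results.MP_70ba79_ag.LogCompleteIntersections

open MvPolynomial SC Pool.Agent.H27.LV Pool.Agent.H17.VG Pool.Agent.H30.VM
open Pool.Agent.H17.BO Pool.Agent.H17.AH
open Pool.Agent.H17.CI (frmT upT)

theorem result : ∀ (n : ℕ) (ι : Type) [Fintype ι] [DecidableEq ι] (e : ι → ℕ) (Z : Finset ι),
    Z ≠ Finset.univ → Z.card < n →
    (3 * n + 2 ≤ 2 * ∑ i, (e i + 1) + Z.card ∨ Border n e Z) →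
    ∃ B : ℕ, ∀ (k : Type) [Field k] [IsAlgClosed k] [CharZero k]
    (c : (Σ i, Mon (n + 1) (e i + 1)) → k), AlgebraicIndependent ℚ c →
    DegreeBoundOff k (eqsP Z c)
      (fun K _ _ z => excP Z c K z ∨ (Border n e Z ∧ excCon Z c K z)) (fun χ => B * χ) ∧
    (∃ Ψ : MvPolynomial (Mon (n + 1) (dgB e Z)) k,
      (∃ z : Mon (n + 1) (dgB e Z) → k, (∀ g ∈ eqsP Z c, aeval z g = 0) ∧ aeval z Ψ ≠ 0) ∧
      ∀ (K : Type) [Field K] [Algebra k K] (z : Mon (n + 1) (dgB e Z) → K),
        (excP Z c K z ∨ (Border n e Z ∧ excCon Z c K z)) → aeval z Ψ = 0) ∧
    (∀ i, frmT c i = ∑ M : Mon (n + 1) (e i + 1), C (c ⟨i, M⟩) * ∏ a, X a ^ M.1 a) ∧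
    ∀ (K : Type) [Field K] [Algebra k K] (z : Mon (n + 1) (dgB e Z) → K),
      (∀ g ∈ eqsP Z c, aeval z g = 0) ↔ ∃ x : Fin (n + 1) → K, (∃ p, x p = 1) ∧
        (∀ i, aeval x (frmT c i) = 0 ↔ i ∈ Z) ∧
        ∀ M : Mon (n + 1) (dgB e Z),
          z M = (∏ a, x a ^ M.1 a) / ∏ i ∈ Finset.univ \ Z, aeval x (frmT c i) := by
  classical
  intro n ι _ _ e Z hZu hZ hne
  obtain ⟨B, hB⟩ := fipu_all n ι e Z hZu hZ hne
  refine ⟨B, ?_⟩
  intro k _ _ _ c hc
  obtain ⟨h1, h2, h3⟩ := hB k c hc
  refine ⟨h1, h2, ?_, ?_⟩
  · intro i
    unfold frmT frm
    refine Finset.sum_congr rfl fun M _ => ?_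
    rw [mono, monomial_eq, map_one, one_mul, Finsupp.prod_fintype _ _ (fun a => pow_zero _)]
    rfl
  · intro K _ _ z
    rw [h3 K z]
    have h4 : ∀ (x : Fin (n + 1) → K) (G : MvPolynomial (Fin (n + 1)) k),
        eval x (up K G) = aeval x G := by
      intro x G
      unfold up
      rw [eval_map, aeval_def]
    refine exists_congr fun x => ?_
    unfold IsPt
    have h5 : ∀ i, eval x (upT K (frmT c) i) = aeval x (frmT c i) := fun i => h4 x _
    have h6 : eval x (up K (bnd Z c)) = ∏ i ∈ Finset.univ \ Z, aeval x (frmT c i) := by
      rw [h4, bnd, map_prod]
    simp only [h5, h6]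

end Pool.Agent.Results.MP_70ba79_ag.LogCompleteIntersections
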