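import Pool.Agent.H84.ND.All

set_option autoImplicit false

/-!
# The Lang-Vojta question for complements of plane curves with normal crossings

`k` is an algebraically closed field of characteristic zero. `Good G d`: `G` is a form of degree `d`
in three variables and all singular points of the curve `C : G = 0` are nodes (then `C` is reduced,
it may be reducible, the number of nodes is arbitrary), and `d ≥ 143`, or `d ≥ 50` and `C` is smooth.
`C` is arbitrary (not general or very general). Part 1: Q1 for the complement of `C`, in two forms:
(a) with empty exceptional set the closure of the image of every morphism from a smooth affine curve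
has degree at most `B max (1, χ)`; (b) outside a curve `Ψ = 0` even the degree of the morphism is at
most `B χ`, and `χ ≥ 1`. The curve `C` need not be avoided: contact of order at least `m` is
allowed, `m` depends only on `C`. Part 2: Q1, with a linear function `β`, for every irreducible
affine variety `X` (any dimension) with a generically finite morphism to a product of projective
planes, such that the inverse image of `C i` is empty or has all multiplicities at least `m i`;
the image should in no factor be contained in the exceptional curve `Ψ i = 0`. This contains the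
affine surfaces `z ^ m = g (x, y)` for all large `m`, if the curve defined by `g` is `Good`.

A curve is given by its function field `K`, a finite set `S` of places (the points at infinity of
the affine curve; places are the discrete valuations `SC.DV k K`, see
`Pool/Agent/H93/SC/Stmt.lean`) and, in part 1, the homogeneous coordinates `x : Fin 3 → K` of a
morphism to the plane. The contact of the curve with `C` at the place `v` is the order of `G (x)`
minus `d` times the smallest order of the coordinates; outside `S` it is `0` or at least `m`.
`canDeg D` is `2 g - 2` (`D` is any nonzero derivation of `K` over `k`), `deg k z` is the degree of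
the morphism `(1 : z)`, that is the sum over all places of the largest pole order of the `z i`, see
`Pool/Agent/H27/LV/Defs.lean`. The degree of the closure of the image of `x` is the smallest degree
of a form `Φ` which vanishes at `x` (for a constant `x` it is `0`, the statement gives a form of
degree at most `B max (1, χ)`). In part 2 `X` is given by its coordinates `σ` and its prime ideal
`P`, the morphism to the plane number `i` by the polynomials `φ i 0`, `φ i 1`, `φ i 2`; the
condition on the ideals says that the function `G i (φ i)` generates the product of the power `d i`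
of the ideal of these three polynomials and of powers of ideals, with exponents at least `m i`
(`r = 0`: the image of `X` does not meet the curve `G i = 0`). `GenFinP` (in
`Pool/Agent/H84/SL/XPR.lean`) says that the morphism to the product is generically finite,
`DegreeBound` (in `Pool/Agent/H27/LV/Final.lean`) is Q1 for `X` with exceptional set `h = 0`.

Outline of the proof (boards `smc_modules`, `slg_modules`, `ndc_modules`, `ode_modules`,
`ode2_modules`). Sections: polynomials `N (x, x', w)`, `w = det (x, x', x'')`, divided by powers of
`G`, regular in the logarithmic 2-jets at the smooth points of `C`; they are regular at the nodes,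
too. A section of negative twist which does not vanish on the curve gives the inequality.
If there is a section of negative twist without `w`, then all curves of large degree satisfy one
first order equation. If there is none, then restriction to a line which is transversal to `C` gives
upper bounds for all spaces of sections; the lower bound for sections without `w` of large twist,
with the contribution of the nodes, gives that `C` has at most `3 d - 6` nodes, and by
Bezout's inequality `C` has a component of degree at least `d - 3`, so `C` can be assumed to
be irreducible. For sections with `w` the lower bound comes from the smooth curves near `C`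
(specialisation), restriction to the curve gives the lower bound for negative twists. By these
bounds and division there is, for each irreducible section `P`, a section of negative twist which
is not divisible by `P`, except if `P = A w + b` has weight 3 and negative twist; then `deg A` is
less than `d / 4` (a form of small degree in the Jacobian ideal at the nodes is used). So curves of
large degree satisfy one of finitely many first order equations, or one of finitely many equations
`A w + b = 0`. First order equations: the solutions in Puiseux series have bounded ramification.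
Equations `A w + b = 0`: `C` itself is a solution; the contact of a solution with `C` at a place is
bounded by a constant or by twice the order of `A` (at the nodes by considering both branches). So
`d deg ≤ 2 (deg A) deg + c #S`. Part 1 (b): curves of bounded degree with `χ ≤ 0` are parametrised
by polynomials `P (T)` with `G (P (T)) = c T ^ m`, and such a family does not move; for the degree
of the morphism the logarithmic Riemann-Hurwitz inequality is used. Curves with high contact: the
number of contact points outside `S` is at most `d deg / m`.
-/

namespace Pool.Agent.Results.MP_70ba79_ag.PlaneCurveComplements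

open MvPolynomial SC Pool.Agent.H27.LV Pool.Agent.H84.SL

/-- `G` is a form of degree `d`, all singular points of the curve `G = 0` are nodes (the kernel of
the matrix of the second derivatives is generated by the point), and `d ≥ 143`, or `d ≥ 50` and the
curve is smooth. -/
def Good {k : Type} [Field k] (G : MvPolynomial (Fin 3) k) (d : ℕ) : Prop :=
  G.IsHomogeneous d ∧
  (∀ a y : Fin 3 → k, a ≠ 0 → (∀ i, eval a (pderiv i G) = 0) →
    (∀ i, ∑ j, eval a (pderiv i (pderiv j G)) * y j = 0) → ∃ c : k, y = c • a) ∧
  (143 ≤ d ∨ 50 ≤ d ∧ ∀ a : Fin 3 → k, (∀ i, eval a (pderiv i G) = 0) → a = 0)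

lemma good_cnl {k : Type} [Field k] [IsAlgClosed k] [CharZero k] (G : MvPolynomial (Fin 3) k)
    (d : ℕ) (h : Good G d) : Pool.Agent.H84.ND.Cnl G d := by
  obtain ⟨hh, hn, hd | ⟨hd, hs⟩⟩ := h
  · exact Pool.Agent.H84.ND.A.n_ALN k G d hd hh fun s hs => ⟨hs, fun y hy => hn s y hs.1 hs.2 hy⟩
  · exact Pool.Agent.H84.SM.A.a_MAIN k G d hd ⟨hh, hs⟩

lemma good_sfo {k : Type} [Field k] [IsAlgClosed k] [CharZero k] (G : MvPolynomial (Fin 3) k)
    (d : ℕ) (h : Good G d) : 1 ≤ d ∧ Pool.Agent.H84.ND.Sfo G d := by
  have h1 := good_cnl G d h
  obtain ⟨hh, hn, hd⟩ := h
  have hd1 : 50 ≤ d := by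
    rcases hd with hd | ⟨hd, -⟩
    · omega
    · exact hd
  have h2 := Pool.Agent.H84.ND.A.n_FBN k G d (by omega) hh
    (fun s hs => ⟨hs, fun y hy => hn s y hs.1 hs.2 hy⟩) h1
  exact ⟨by omega, Pool.Agent.H84.ND.A.n_ORB k G d (by omega) hh h2⟩

theorem result : ∀ (k : Type) [Field k] [IsAlgClosed k] [CharZero k],
    (∀ (d : ℕ) (G : MvPolynomial (Fin 3) k), Good G d →
    ∃ (B m N : ℕ) (Ψ : MvPolynomial (Fin 3) k), Ψ ≠ 0 ∧ Ψ.IsHomogeneous N ∧
    ∀ (K : Type) [Field K] [Algebra k K] [Algebra.EssFiniteType k K], Algebra.trdeg k K = 1 →
    ∀ (D : Derivation k K K), D ≠ 0 → ∀ (x : Fin 3 → K) (S : Finset (DV k K)),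
    aeval x G ≠ 0 →
    (∀ v, v ∉ S → ∃ j, x j ≠ 0 ∧ (∀ i, x i ≠ 0 → v.ord (x j) ≤ v.ord (x i)) ∧
      (v.ord (aeval x G) = d * v.ord (x j) ∨ d * v.ord (x j) + m ≤ v.ord (aeval x G))) →
    (∃ (e : ℕ) (Φ : MvPolynomial (Fin 3) k), (e : ℤ) ≤ B * max 1 (canDeg D + S.card) ∧ Φ ≠ 0 ∧
      Φ.IsHomogeneous e ∧ aeval x Φ = 0) ∧
    (aeval x Ψ ≠ 0 → (∃ i j, x j ≠ 0 ∧ x i / x j ∉ Set.range (algebraMap k K)) →
      1 ≤ canDeg D + S.card ∧
      ∀ j, x j ≠ 0 → deg k (fun i => x i / x j) ≤ B * (canDeg D + S.card))) ∧
    ∀ (ι : Type) [Fintype ι] [DecidableEq ι] [Nonempty ι] (G : ι → MvPolynomial (Fin 3) k)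
    (d : ι → ℕ), (∀ i, Good (G i) (d i)) →
    ∃ (Ψ : ι → MvPolynomial (Fin 3) k) (m : ι → ℕ),
    (∀ i, Ψ i ≠ 0 ∧ ∃ N, (Ψ i).IsHomogeneous N) ∧
    ∀ (σ : Type) [Fintype σ] (P : Ideal (MvPolynomial σ k)) (φ : ι → Fin 3 → MvPolynomial σ k),
    P.IsPrime → (∀ i, (∃ j, φ i j ∉ P) ∧ aeval (φ i) (Ψ i) ∉ P) → GenFinP P φ →
    (∀ i, aeval (φ i) (G i) ∉ P) →
    (∀ i, ∃ (r : ℕ) (J : Fin r → Ideal (MvPolynomial σ k)) (ε : Fin r → ℕ), (∀ a, m i ≤ ε a) ∧
      Ideal.span {aeval (φ i) (G i)} ⊔ P =
        (Ideal.span (Set.range (φ i)) ^ d i * ∏ a, J a ^ ε a) ⊔ P) →
    ∃ (h : MvPolynomial σ k) (B : ℕ), h ∉ P ∧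
      DegreeBound k (P : Set (MvPolynomial σ k)) h (fun χ => B * χ) := by
  intro k _ _ _
  refine ⟨fun d G hG => ?_, fun ι _ _ _ G d hG => ?_⟩
  · exact Pool.Agent.H84.ND.A.n_GCO k G d (good_sfo G d hG).1 hG.1 (good_sfo G d hG).2
  · exact Pool.Agent.H84.ND.A.n_XPO k ι G d (fun i => (good_sfo _ _ (hG i)).1)
      (fun i => (hG i).1) (fun i => (good_sfo _ _ (hG i)).2)

end Pool.Agent.Results.MP_70ba79_ag.PlaneCurveComplements
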