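import Pool.Agent.H84.S2.AllE

set_option autoImplicit false

/-!
# The Lang-Vojta question for complements of nodal curves of large degree on projective surfaces

`k` is an algebraically closed field of characteristic zero. `Surface I d`: `I` is the homogeneous
prime ideal of an irreducible projective surface `Y` of degree at most `d` (any singularities are
allowed); `τ` is the set of homogeneous coordinates. `NodalCurve I G m`: `G` is a form of degree
`m`, `Y` is smooth along the curve `G = 0` on `Y`, and this curve has no other singularities than
nodes (a divisor with normal crossings, in particular a reduced scheme; it may be reducible and have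
any number of nodes). `S` is a form of degree `s`, `S ∉ I`. The curve `D` is the union of the
components of `G = 0` which are not contained in `S = 0`, that is, the Zariski closure of the set
of the points of `Y` with `G = 0` and `S ≠ 0`; `Vanishes I G S h` says that `h` vanishes on `D`.
For `S = 1` it is the curve `G = 0` itself. So the class of `D` is `m H` minus the class of a curve
of small degree; by the theorem of Bertini and the theorem of Serre (not used here) every curve `D`
with normal crossings in the class `m A + E`, where `A` is ample, `E` is fixed and `m` is large, on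
a smooth projective surface is obtained in this way.

The theorem: for every `d` there is `N` such that for every algebraically closed field `k` of
characteristic zero, every surface `Y` of degree at most `d`, and all `m`, `G`, `s`, `S` with
`N (s + 1) ≤ m` and `NodalCurve I G m` (no genericity) the following holds.

Part 1: Q1 for the complement of `D`, in two forms: (a) with empty exceptional set the image of
every morphism from a smooth affine curve lies in the intersection of `Y` with a hypersurface
`Φ = 0` of degree at most `B max (1, χ)` which does not contain `Y`, so the closure of the image has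
degree at most `deg Y * B max (1, χ)`; (b) outside a curve `Ψ = 0` even the degree of the morphism
is at most `B χ`, and `χ ≥ 1`. The curve `D` need not be avoided: at the points which are mapped
into `D` contact of order at least `M` with `G = 0` is allowed, `M` depends only on `Y`, `G`, `S`.
Part 2: Q1, with a linear function `β`, for every irreducible affine variety `X` (any dimension)
with a generically finite morphism to a product of such surfaces `Y i`, such that the inverse image
of `D i` is empty or contained in the union of closed subschemes along which `G i` vanishes with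
multiplicities at least `M i`; the image should in no factor be contained in the exceptional curve
`Ψ i = 0`.

A curve is given by its function field `K`, a finite set `Sp` of places (the points at infinity of
the affine curve; places are the discrete valuations `SC.DV k K`, see
`Pool/Agent/H93/SC/Stmt.lean`) and, in part 1, the homogeneous coordinates `z : τ → K` of a
morphism to `Y`. At the place `v` outside `Sp` one of the coordinates `z j` has the smallest order;
the image of `v` does not lie on `D` if and only if some form `h` (of some degree `e`) which
vanishes on `D` does not vanish at this point, that is, the order of `h (z)` is `e` times the order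
of `z j`. The contact with `G = 0` is the order of `G (z)` minus `m` times the order of `z j`.
`canDeg D` is `2 g - 2` (`D` is any nonzero derivation of `K` over `k`), `deg k z` is the degree of
the morphism `(1 : z)`, that is the sum over all places of the largest pole order of the `z i`, see
`Pool/Agent/H27/LV/Defs.lean`. In part 2 `X` is given by its coordinates `σ` and its prime ideal
`P`, the morphism to `Y i` by the polynomials `φ i j`, `j` in `τ i`. The conditions on the ideals
`J a`, `a < r`: the function `G i (φ i)` lies in the product of the power `m i` of the ideal of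
the `φ i j` and of the powers `ε a ≥ M i` of the `J a`; and outside the zero sets of the `J a` some
form which vanishes on `D i` does not vanish at the image point (`r = 0`: the image of `X` does not
meet the curve `D i`). `DegreeBound` (in `Pool/Agent/H27/LV/Final.lean`) is Q1 for `X` with
exceptional set `h = 0`.

Outline of the proof. `F` is the function field of the cone over `Y`, `u` three linear forms which
define a finite projection of degree `δ` to the plane, `J (u)` a form which absorbs all denominators
of the derivations `∂ / ∂ u`. Sections: polynomials in `u × u'` and `w = det (u, u', u'')` with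
coefficients in `F` which are regular in the logarithmic 2-jets along `G = 0`; the regularity is
expressed by integrality over `k[u]` of the coefficients in charts given by the gradient of `G`.
Lower bound for the dimension of the spaces of sections: numerators minus conditions along the
curve; upper bound: if all sections are divisible by high powers of one polynomial `P`, then
restriction to the generic plane section of `Y` (norms to `k[u]`) gives a contradiction for large
`m`, except if `P = A w + b` has weight 3 and small denominators; then `P` is a connection for which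
the curve is a solution. So curves of large degree satisfy one of finitely many first order
equations, or one of finitely many equations `A w + b = 0`. First order equations: bounded
ramification of the solutions in Puiseux series for the plane curve `u (f)`. Equations
`A w + b = 0`: the contact of a solution with `G = 0` at a place is bounded by the order of
`A J ^ 4` plus a constant (local rings of `Y` at the points of the curve, indicial polynomials;
nodes are blown up). Part 1 (b): curves of bounded degree with `χ ≤ 0` are parametrised by
polynomials `P (T)` such that `G (P (T))` divides `T ^ n S (P (T))`, and the determinant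
`J det (u, δ u, T du/dT)` shows that such a family does not move; for the degree of the morphism the
logarithmic Riemann-Hurwitz inequality is used. The curve may meet `G = 0` outside `D`, at most to
the order of `S` (`G = 0` is reduced, so `S h` is locally divisible by `G` if `h` vanishes on `D`);
this costs a multiple of the degree of `S`.

Nodes: there are two cases. (A) A form of degree `m / C` vanishes at all nodes: the arguments above
work with denominators which are powers of this form, since it lies in the Jacobian ideal of the
curve. (B) About `m ^ 2 / (2 C ^ 2)` of the nodes are separated by forms of degree `m / C`: then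
there are logarithmic symmetric differentials of negative twist, by a count of the forms `B` of
degree `n` in three variables with `∑ l, (∂ G / ∂ u l) * (∂ B / ∂ ρ l) = 0`; the equations are
dependent because of the jets at the nodes.
-/

namespace Pool.Agent.Results.MP_70ba79_ag.SurfaceComplements

open MvPolynomial SC Pool.Agent.H27.LV

/-- `I` is the homogeneous prime ideal of a projective surface; the Hilbert function (the dimension
of the space of the forms of degree `t` modulo `I`) is at most `d t ^ 2 / 2` plus a linear function
of `t`, that is, the degree of the surface is at most `d` -/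
structure Surface {k τ : Type} [Field k] (I : Ideal (MvPolynomial τ k)) (d : ℕ) : Prop where
  prime : I.IsPrime
  hom : ∀ f ∈ I, ∀ e, homogeneousComponent e f ∈ I
  dim : Algebra.trdeg k (FractionRing (MvPolynomial τ k ⧸ I)) = 3
  deg : ∃ c : ℕ, ∀ t : ℕ, 2 * Module.finrank k
    ((homogeneousSubmodule τ k t).map (Ideal.Quotient.mkₐ k I).toLinearMap) ≤
      d * t ^ 2 + c * (t + 1)

/-- `y` is a tangent vector at `s` of the cone over the surface -/
def Tangent {k τ : Type} [Field k] [Fintype τ] (I : Ideal (MvPolynomial τ k)) (s y : τ → k) :
    Prop :=
  ∀ f ∈ I, ∑ j, eval s (pderiv j f) * y j = 0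

/-- The surface and the curve `G = 0` are smooth at `s`: the vectors `y` which are orthogonal to the
gradients of `G` and of the elements of `I` form a space of dimension at most two. -/
def SmoothAt {k τ : Type} [Field k] [Fintype τ] (I : Ideal (MvPolynomial τ k))
    (G : MvPolynomial τ k) (s : τ → k) : Prop :=
  ∀ y : Fin 3 → τ → k, (∀ i, ∀ f, f ∈ I ∨ f = G → ∑ j, eval s (pderiv j f) * y i j = 0) →
    ¬ LinearIndependent k y

/-- The surface is smooth at `s` (the tangent space of the cone has dimension at most three) and the
curve `G = 0` has a node there: on the surface `G` agrees with a polynomial `G - f`, `f` in `I`,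
whose gradient at `s` is zero and whose second derivatives form a symmetric bilinear form on the
tangent space with the radical `k s`. -/
structure NodeAt {k τ : Type} [Field k] [Fintype τ] (I : Ideal (MvPolynomial τ k))
    (G : MvPolynomial τ k) (s : τ → k) : Prop where
  dim : ∀ y : Fin 4 → τ → k, (∀ i, Tangent I s (y i)) → ¬ LinearIndependent k y
  node : ∃ f ∈ I, (∀ j, eval s (pderiv j (G - f)) = 0) ∧
    ∀ y, Tangent I s y → (∀ z, Tangent I s z →
      ∑ i, ∑ j, eval s (pderiv i (pderiv j (G - f))) * y i * z j = 0) → ∃ c : k, y = c • s

/-- `G` is a form of degree `m` and does not vanish on the surface; at every point of the curve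
`G = 0` on the surface the surface is smooth, and the curve is smooth or has a node. -/
structure NodalCurve {k τ : Type} [Field k] [Fintype τ] (I : Ideal (MvPolynomial τ k))
    (G : MvPolynomial τ k) (m : ℕ) : Prop where
  hom : G.IsHomogeneous m
  ne : G ∉ I
  nodal : ∀ s : τ → k, s ≠ 0 → (∀ f ∈ I, eval s f = 0) → eval s G = 0 →
    SmoothAt I G s ∨ NodeAt I G s

/-- `h` vanishes on `D`, the union of the components of the curve `G = 0` on the surface with the
ideal `I` which are not contained in `S = 0` -/
def Vanishes {k τ : Type} [Field k] (I : Ideal (MvPolynomial τ k)) (G S h : MvPolynomial τ k) :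
    Prop :=
  ∀ y : τ → k, (∀ f ∈ I, eval y f = 0) → eval y G = 0 → eval y S ≠ 0 → eval y h = 0

/-- The coordinates of the affine variety with the ideal `P` are algebraic over the field generated
by the quotients `φ_i,j / φ_i,j'`: there are relations with coefficients which are polynomials in
the `φ_i,j`, homogeneous in each group of variables, the leading coefficient is not `0`. So the map
to the product of the projective spaces is generically finite. -/
def GenFinite {k σ ι : Type} [Field k] [DecidableEq ι] {τ : ι → Type}
    (P : Ideal (MvPolynomial σ k)) (φ : ∀ i, τ i → MvPolynomial σ k) : Prop :=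
  ∀ s : σ, ∃ (m : ι → ℕ) (e : ℕ) (c : ℕ → MvPolynomial (Σ i, τ i) k), 1 ≤ e ∧
    (∀ l i, IsWeightedHomogeneous (fun p : Σ i, τ i => if p.1 = i then 1 else 0) (c l) (m i)) ∧
    aeval (fun p : Σ i, τ i => φ p.1 p.2) (c e) ∉ P ∧
    ∑ l ∈ Finset.range (e + 1), aeval (fun p : Σ i, τ i => φ p.1 p.2) (c l) * X s ^ l ∈ P

/-- Part 1: Q1 for the complement of `D` on the surface with the ideal `I`. A curve has the
function field `K`, the points at infinity `Sp`, the morphism has the homogeneous coordinates `z`;
a place outside `Sp` is not mapped into `D`, or the contact with `G = 0` is at least `M`. -/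
def CurveBounds {k τ : Type} [Field k] [Fintype τ] (I : Ideal (MvPolynomial τ k))
    (G : MvPolynomial τ k) (m : ℕ) (S : MvPolynomial τ k) : Prop :=
  ∃ (B M N : ℕ) (Ψ : MvPolynomial τ k), Ψ ∉ I ∧ Ψ.IsHomogeneous N ∧
  ∀ (K : Type) [Field K] [Algebra k K] [Algebra.EssFiniteType k K], Algebra.trdeg k K = 1 →
  ∀ (D : Derivation k K K), D ≠ 0 → ∀ (z : τ → K) (Sp : Finset (DV k K)),
  (∀ f ∈ I, aeval z f = 0) →
  (∀ v, v ∉ Sp → ∃ j, z j ≠ 0 ∧ (∀ i, z i ≠ 0 → v.ord (z j) ≤ v.ord (z i)) ∧
    ((∃ (e : ℕ) (h : MvPolynomial τ k), h.IsHomogeneous e ∧ Vanishes I G S h ∧ aeval z h ≠ 0 ∧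
      v.ord (aeval z h) = e * v.ord (z j)) ∨ m * v.ord (z j) + M ≤ v.ord (aeval z G))) →
  (∃ (e : ℕ) (Φ : MvPolynomial τ k), (e : ℤ) ≤ B * max 1 (canDeg D + Sp.card) ∧ Φ ∉ I ∧
    Φ.IsHomogeneous e ∧ aeval z Φ = 0) ∧
  (aeval z Ψ ≠ 0 → (∃ i j, z j ≠ 0 ∧ z i / z j ∉ Set.range (algebraMap k K)) →
    1 ≤ canDeg D + Sp.card ∧
    ∀ j, z j ≠ 0 → deg k (fun i => z i / z j) ≤ B * (canDeg D + Sp.card))

/-- Part 2: Q1 for the affine varieties with a generically finite morphism to the product of the
surfaces with the ideals `I i`; `G i` vanishes with multiplicities at least `M i` along closed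
subschemes which contain the inverse image of `D i`. -/
def ProductBounds {k ι : Type} [Field k] [DecidableEq ι] {τ : ι → Type}
    (I : ∀ i, Ideal (MvPolynomial (τ i) k)) (G : ∀ i, MvPolynomial (τ i) k) (m : ι → ℕ)
    (S : ∀ i, MvPolynomial (τ i) k) : Prop :=
  ∃ (Ψ : ∀ i, MvPolynomial (τ i) k) (M : ι → ℕ),
  (∀ i, Ψ i ∉ I i ∧ ∃ N, (Ψ i).IsHomogeneous N) ∧
  ∀ (σ : Type) [Fintype σ] (P : Ideal (MvPolynomial σ k)) (φ : ∀ i, τ i → MvPolynomial σ k),
  P.IsPrime → (∀ i, ∀ f ∈ I i, aeval (φ i) f ∈ P) → (∀ i, aeval (φ i) (Ψ i) ∉ P) →
  GenFinite P φ →
  (∀ i, ∃ (r : ℕ) (J : Fin r → Ideal (MvPolynomial σ k)) (ε ε' : Fin r → ℕ) (E : ℕ),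
    (∀ a, M i ≤ ε a) ∧
    aeval (φ i) (G i) ∈ (Ideal.span (Set.range (φ i)) ^ m i * ∏ a, J a ^ ε a) ⊔ P ∧
    Ideal.span (Set.range (φ i)) ^ E * ∏ a, J a ^ ε' a ≤
      Ideal.span {g | ∃ h, h.IsHomogeneous E ∧ Vanishes (I i) (G i) (S i) h ∧
        g = aeval (φ i) h} ⊔ P) →
  ∃ (h : MvPolynomial σ k) (B : ℕ), h ∉ P ∧
    DegreeBound k (P : Set (MvPolynomial σ k)) h (fun χ => B * χ)

theorem result : ∀ d : ℕ, ∃ N : ℕ, ∀ (k : Type) [Field k] [IsAlgClosed k] [CharZero k],
    (∀ (τ : Type) [Fintype τ] (I : Ideal (MvPolynomial τ k)), Surface I d →
      ∀ (m : ℕ) (G : MvPolynomial τ k) (s : ℕ) (S : MvPolynomial τ k), N * (s + 1) ≤ m →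
      NodalCurve I G m → S.IsHomogeneous s → S ∉ I → CurveBounds I G m S) ∧
    ∀ (ι : Type) [Fintype ι] [DecidableEq ι] [Nonempty ι] (τ : ι → Type) [∀ i, Fintype (τ i)]
      (I : ∀ i, Ideal (MvPolynomial (τ i) k)), (∀ i, Surface (I i) d) →
      ∀ (m : ι → ℕ) (G : ∀ i, MvPolynomial (τ i) k) (s : ι → ℕ)
      (S : ∀ i, MvPolynomial (τ i) k), (∀ i, N * (s i + 1) ≤ m i) →
      (∀ i, NodalCurve (I i) (G i) (m i)) → (∀ i, (S i).IsHomogeneous (s i)) →
      (∀ i, S i ∉ I i) → ProductBounds I G m S := by
  intro d
  obtain ⟨N, h0⟩ := Pool.Agent.H84.S2.thmE d
  refine ⟨N, ?_⟩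
  intro k _ _ _
  obtain ⟨h1, h2⟩ := h0 k
  refine ⟨fun τ _ I hI m G s S hm hG hSh hS => ?_,
    fun ι _ _ _ τ _ I hI m G s S hm hG hSh hS => ?_⟩
  · have := hI.prime
    exact h1 τ I hI.hom hI.dim hI.deg m G s S hm ⟨hG.hom, hG.ne, fun s hs h3 h4 =>
      (hG.nodal s hs h3 h4).imp id fun h5 => ⟨h5.dim, h5.node⟩⟩ hSh hS
  · have : ∀ i, (I i).IsPrime := fun i => (hI i).prime
    exact h2 ι τ I (fun i => (hI i).hom) (fun i => (hI i).dim) (fun i => (hI i).deg) m G s S hm
      (fun i => ⟨(hG i).hom, (hG i).ne, fun s hs h3 h4 =>
        ((hG i).nodal s hs h3 h4).imp id fun h5 => ⟨h5.dim, h5.node⟩⟩) hSh hS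

end Pool.Agent.Results.MP_70ba79_ag.SurfaceComplements
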